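import Mathlib
import Pool.Agent.H64.Pent.Defs
import Pool.Agent.H59.Pent.CritOf

set_option autoImplicit false

/-!
Inclusion-minimal contra pairs on permutation graphs (MP_a46c6f_co): every word without the letter
`z = (0, 1)` of the code of the permutation splits.
-/

namespace Pool.Agent.H77.Code

open SimpleGraph Pool.Agent.H5.Goddyn Pool.Agent.H98.TC Pool.Agent.H64.Pent Pool.Agent.H59.Pent

variable {V : Type*}

/-- `(G, w)` is an inclusion-minimal contra pair: it has no faithful circuit cover, but every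
eulerian weight `w' ≤ w`, `w' ≠ w` with bridgeless support has one. -/
def IsInclusionMinimal (G : SimpleGraph V) (w : Sym2 V → ℕ) : Prop :=
  ¬ HasFaithfulCircuitCover G w ∧ ∀ w' : Sym2 V → ℕ, (∀ e ∈ G.edgeSet, w' e ≤ w e) →
    (∃ e ∈ G.edgeSet, w' e ≠ w e) → Eulerian (support G w') w' → Bridgeless (support G w') →
    HasFaithfulCircuitCover G w'

/-- `(a, b)` is an even set of edges of the 4-regular graph `G / M`. -/
def Ev {n : ℕ} (p : Equiv.Perm (ZMod n)) (a b : ZMod n → ZMod 2) : Prop :=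
  ∀ i, a (i - 1) + a i = b (p i - 1) + b (p i)

/-- the word of `(a, b)`; the letters are `z = (0, 1)`, `x = (1, 0)`, `y = (1, 1)` -/
def word {n : ℕ} (p : Equiv.Perm (ZMod n)) (a b : ZMod n → ZMod 2) (i : ZMod n) : ZMod 2 × ZMod 2 :=
  (a (i - 1) + a i, a i + b (p i))

lemma fcc_add (G : SimpleGraph V) (w w₁ w₂ : Sym2 V → ℕ) (h : ∀ e ∈ G.edgeSet, w e = w₁ e + w₂ e)
    (h1 : HasFaithfulCircuitCover G w₁) (h2 : HasFaithfulCircuitCover G w₂) :
    HasFaithfulCircuitCover G w := by
  obtain ⟨k, C, hC, hCw⟩ := h1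
  obtain ⟨l, D, hD, hDw⟩ := h2
  refine ⟨k + l, Fin.append C D, ?_, ?_⟩
  · intro i
    refine Fin.addCases (fun i => ?_) (fun i => ?_) i
    · rw [Fin.append_left]; exact hC i
    · rw [Fin.append_right]; exact hD i
  · intro e he
    have hs : {i | e ∈ (Fin.append C D i).edgeSet} =
        (Fin.castAdd l '' {i | e ∈ (C i).edgeSet}) ∪ (Fin.natAdd k '' {i | e ∈ (D i).edgeSet}) := by
      ext i
      refine Fin.addCases (fun i => ?_) (fun i => ?_) i
      · constructor
        · intro hi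
          rw [Set.mem_ofPred_eq, Fin.append_left] at hi
          exact Or.inl ⟨i, hi, rfl⟩
        · rintro (⟨j, hj, hji⟩ | ⟨j, hj, hji⟩)
          · have := Fin.castAdd_injective _ _ hji
            subst this
            rw [Set.mem_ofPred_eq, Fin.append_left]
            exact hj
          · exfalso
            have := congrArg Fin.val hji
            simp at this
            have := i.2
            omega
      · constructor
        · intro hi
          rw [Set.mem_ofPred_eq, Fin.append_right] at hi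
          exact Or.inr ⟨i, hi, rfl⟩
        · rintro (⟨j, hj, hji⟩ | ⟨j, hj, hji⟩)
          · exfalso
            have := congrArg Fin.val hji
            simp at this
            have := j.2
            omega
          · have := Fin.natAdd_injective _ _ hji
            subst this
            rw [Set.mem_ofPred_eq, Fin.append_right]
            exact hj
    rw [hs, Set.ncard_union_eq ?_ (Set.toFinite _) (Set.toFinite _),
      Set.ncard_image_of_injective _ (Fin.castAdd_injective _ _),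
      Set.ncard_image_of_injective _ (Fin.natAdd_injective _ _), hCw e he, hDw e he, h e he]
    rw [Set.disjoint_left]
    rintro i ⟨j, _, hj⟩ ⟨j', _, hj'⟩
    have := congrArg Fin.val (hj.trans hj'.symm)
    simp at this
    have := j.2
    omega

/-- the parity identity -/
lemma parity_sum {n : ℕ} [NeZero n] (p : Equiv.Perm (ZMod n)) (a b X Y : ZMod n → ZMod 2)
    (hab : Ev p a b) : ∑ i, a i * (X i + X (i + 1)) + ∑ j, b j * (Y j + Y (j + 1)) +
      ∑ i, (a (i - 1) + a i) * (X i + Y (p i)) = 0 := by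
  have key : ∀ a X : ZMod n → ZMod 2,
      ∑ i, a i * (X i + X (i + 1)) = ∑ i, (a (i - 1) + a i) * X i := by
    intro a X
    have h4 : ∑ i, a i * X (i + 1) = ∑ i, a (i - 1) * X i := by
      have := Equiv.sum_comp (Equiv.addRight (1 : ZMod n)) (fun i => a (i - 1) * X i)
      rw [← this]
      refine Finset.sum_congr rfl fun i _ => ?_
      show a i * X (i + 1) = a (i + 1 - 1) * X (i + 1)
      rw [add_sub_cancel_right]
    simp only [mul_add, add_mul, Finset.sum_add_distrib]
    rw [h4, add_comm]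
  rw [key a X, key b Y]
  have k3 : ∑ j, (b (j - 1) + b j) * Y j = ∑ i, (a (i - 1) + a i) * Y (p i) := by
    rw [← Equiv.sum_comp p (fun j => (b (j - 1) + b j) * Y j)]
    exact Finset.sum_congr rfl fun i _ => by rw [hab i]
  rw [k3]
  have k4 : ∑ i, (a (i - 1) + a i) * (X i + Y (p i)) =
      ∑ i, (a (i - 1) + a i) * X i + ∑ i, (a (i - 1) + a i) * Y (p i) := by
    rw [← Finset.sum_add_distrib]
    exact Finset.sum_congr rfl fun i _ => by rw [mul_add]
  rw [k4]
  exact CharTwo.add_self_eq_zero _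

open Classical in
/-- the weight of the half given by `(a, b)` -/
noncomputable def W {n : ℕ} (x y : ZMod n → V) (p : Equiv.Perm (ZMod n)) (a b : ZMod n → ZMod 2)
    (e : Sym2 V) : ℕ :=
  (if ∃ i, a i = 1 ∧ e = s(x i, x (i + 1)) then 1 else 0) +
  (if ∃ j, b j = 1 ∧ e = s(y j, y (j + 1)) then 1 else 0) +
  (if ∃ i, a i = 1 ∧ e = s(x i, y (p i)) then 1 else 0) +
  (if ∃ i, a (i - 1) = 1 ∧ e = s(x i, y (p i)) then 1 else 0)

section

variable {n : ℕ} {x y : ZMod n → V} {p : Equiv.Perm (ZMod n)}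

lemma sx_iff (hn : 3 ≤ n) (ix : Function.Injective x) (i k : ZMod n) :
    s(x i, x (i + 1)) = s(x k, x (k + 1)) ↔ i = k := by
  constructor
  · intro h
    rw [Sym2.eq_iff] at h
    rcases h with h | h
    · exact ix h.1
    · exfalso
      have h1 := ix h.1
      have h2 := ix h.2
      rw [h1] at h2
      exact two_ne hn (k + 1) (by rw [h2, add_sub_cancel_right])
  · rintro rfl; rfl

lemma sm_iff (ix : Function.Injective x) (hxy : ∀ i j, x i ≠ y j) (i k : ZMod n) :
    s(x i, y (p i)) = s(x k, y (p k)) ↔ i = k := by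
  constructor
  · intro h
    rw [Sym2.eq_iff] at h
    rcases h with h | h
    · exact ix h.1
    · exact absurd h.1 (hxy _ _)
  · rintro rfl; rfl

lemma sxy (hxy : ∀ i j, x i ≠ y j) (i k : ZMod n) : s(x i, x (i + 1)) ≠ s(y k, y (k + 1)) := by
  intro h
  rw [Sym2.eq_iff] at h
  rcases h with h | h
  · exact hxy _ _ h.1
  · exact hxy _ _ h.1

lemma sxm (hxy : ∀ i j, x i ≠ y j) (i k : ZMod n) : s(x i, x (i + 1)) ≠ s(x k, y (p k)) := by
  intro h
  rw [Sym2.eq_iff] at h
  rcases h with h | h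
  · exact hxy _ _ h.2
  · exact hxy _ _ h.1

lemma sym' (hxy : ∀ i j, x i ≠ y j) (i k : ZMod n) : s(y i, y (i + 1)) ≠ s(x k, y (p k)) := by
  intro h
  rw [Sym2.eq_iff] at h
  rcases h with h | h
  · exact hxy _ _ h.1.symm
  · exact hxy _ _ h.2.symm

open Classical in
lemma W_x (hn : 3 ≤ n) (ix : Function.Injective x) (hxy : ∀ i j, x i ≠ y j)
    (a b : ZMod n → ZMod 2) (i : ZMod n) :
    W x y p a b s(x i, x (i + 1)) = if a i = 1 then 1 else 0 := by
  unfold W
  rw [if_neg (c := ∃ j, b j = 1 ∧ _) (by rintro ⟨j, _, h⟩; exact sxy hxy _ _ h),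
    if_neg (c := ∃ k, a k = 1 ∧ s(x i, x (i + 1)) = s(x k, y (p k)))
      (by rintro ⟨j, _, h⟩; exact sxm hxy _ _ h),
    if_neg (c := ∃ k, a (k - 1) = 1 ∧ _) (by rintro ⟨j, _, h⟩; exact sxm hxy _ _ h)]
  simp only [add_zero]
  refine if_congr ⟨?_, fun h => ⟨i, h, rfl⟩⟩ rfl rfl
  rintro ⟨k, hk, h⟩
  rw [sx_iff hn ix] at h
  rw [h]; exact hk

open Classical in
lemma W_y (hn : 3 ≤ n) (iy : Function.Injective y) (hxy : ∀ i j, x i ≠ y j)
    (a b : ZMod n → ZMod 2) (i : ZMod n) :
    W x y p a b s(y i, y (i + 1)) = if b i = 1 then 1 else 0 := by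
  unfold W
  rw [if_neg (c := ∃ j, a j = 1 ∧ s(y i, y (i + 1)) = s(x j, x (j + 1)))
      (by rintro ⟨j, _, h⟩; exact sxy hxy _ _ h.symm),
    if_neg (c := ∃ k, a k = 1 ∧ s(y i, y (i + 1)) = s(x k, y (p k)))
      (by rintro ⟨j, _, h⟩; exact sym' hxy _ _ h),
    if_neg (c := ∃ k, a (k - 1) = 1 ∧ _) (by rintro ⟨j, _, h⟩; exact sym' hxy _ _ h)]
  simp only [add_zero, zero_add]
  refine if_congr ⟨?_, fun h => ⟨i, h, rfl⟩⟩ rfl rfl
  rintro ⟨k, hk, h⟩
  rw [sx_iff hn iy] at h
  rw [h]; exact hk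

open Classical in
lemma W_m (ix : Function.Injective x) (hxy : ∀ i j, x i ≠ y j)
    (a b : ZMod n → ZMod 2) (i : ZMod n) :
    W x y p a b s(x i, y (p i)) = (if a i = 1 then 1 else 0) + if a (i - 1) = 1 then 1 else 0 := by
  unfold W
  rw [if_neg (c := ∃ j, a j = 1 ∧ s(x i, y (p i)) = s(x j, x (j + 1)))
      (by rintro ⟨j, _, h⟩; exact sxm hxy _ _ h.symm),
    if_neg (c := ∃ j, b j = 1 ∧ _) (by rintro ⟨j, _, h⟩; exact sym' hxy _ _ h.symm)]
  simp only [add_zero, zero_add]
  congr 1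
  · refine if_congr ⟨?_, fun h => ⟨i, h, rfl⟩⟩ rfl rfl
    rintro ⟨k, hk, h⟩
    rw [sm_iff ix hxy] at h
    rw [h]; exact hk
  · refine if_congr ⟨?_, fun h => ⟨i, h, rfl⟩⟩ rfl rfl
    rintro ⟨k, hk, h⟩
    rw [sm_iff ix hxy] at h
    rw [h]; exact hk

end

/-- the numbered graph -/
structure Num (G : SimpleGraph V) {n : ℕ} (x y : ZMod n → V) (p : Equiv.Perm (ZMod n)) : Prop where
  hn : 3 ≤ n
  ix : Function.Injective x
  iy : Function.Injective y
  hxy : ∀ i j, x i ≠ y j
  cov : ∀ v, (∃ i, v = x i) ∨ ∃ i, v = y (p i)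
  gx : ∀ i, G.Adj (x i) (x (i + 1))
  gy : ∀ j, G.Adj (y j) (y (j + 1))
  gm : ∀ i, G.Adj (x i) (y (p i))
  edge : ∀ e ∈ G.edgeSet, (∃ i, e = s(x i, x (i + 1))) ∨ (∃ j, e = s(y j, y (j + 1))) ∨
    ∃ i, e = s(x i, y (p i))

section

variable {G : SimpleGraph V} {n : ℕ} {x y : ZMod n → V} {p : Equiv.Perm (ZMod n)}

lemma Num.hx1 (N : Num G x y p) (i : ZMod n) : x i ≠ x (i + 1) :=
  fun h => one_ne N.hn i (N.ix h).symm

lemma Num.hy1 (N : Num G x y p) (i : ZMod n) : y i ≠ y (i + 1) :=
  fun h => one_ne N.hn i (N.iy h).symm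

lemma supp_adj (w : Sym2 V → ℕ) (u v : V) :
    (support G w).Adj u v ↔ G.Adj u v ∧ 0 < w s(u, v) := by
  unfold Pool.Agent.H98.TC.support
  rw [fromEdgeSet_adj]
  constructor
  · rintro ⟨⟨h1, h2⟩, h3⟩
    exact ⟨h1, h2⟩
  · rintro ⟨h1, h2⟩
    exact ⟨⟨h1, h2⟩, h1.ne⟩

lemma odd_iff (N : Num G x y p) (a b : ZMod n → ZMod 2) (u v : V) :
    ((support G (W x y p a b)).Adj u v ∧ Odd (W x y p a b s(u, v))) ↔
      (AG x y p a b N.hx1 N.hy1 N.hxy).Adj u v := by
  have hAG : (AG x y p a b N.hx1 N.hy1 N.hxy).Adj u v ↔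
      (∃ i, a i = 1 ∧ s(u, v) = s(x i, x (i + 1))) ∨ (∃ j, b j = 1 ∧ s(u, v) = s(y j, y (j + 1))) ∨
      ∃ i, a (i - 1) + a i = 1 ∧ s(u, v) = s(x i, y (p i)) := by
    simp only [Sym2.eq_iff]
    rfl
  rw [hAG, supp_adj]
  constructor
  · rintro ⟨⟨h1, h2⟩, h3⟩
    rcases N.edge s(u, v) h1 with ⟨i, hi⟩ | ⟨j, hj⟩ | ⟨i, hi⟩
    · rw [hi, W_x N.hn N.ix N.hxy] at h3
      refine Or.inl ⟨i, ?_, hi⟩
      by_contra h
      rw [if_neg h] at h3
      exact absurd h3 (by decide)
    · rw [hj, W_y N.hn N.iy N.hxy] at h3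
      refine Or.inr (Or.inl ⟨j, ?_, hj⟩)
      by_contra h
      rw [if_neg h] at h3
      exact absurd h3 (by decide)
    · rw [hi, W_m N.ix N.hxy] at h3
      refine Or.inr (Or.inr ⟨i, ?_, hi⟩)
      rcases z2 (a i) with h | h <;> rcases z2 (a (i - 1)) with h' | h' <;> rw [h, h'] at h3 ⊢ <;>
        first | decide | exact absurd h3 (by decide)
  · rintro (⟨i, h1, h2⟩ | ⟨i, h1, h2⟩ | ⟨i, h1, h2⟩)
    · have hg : G.Adj u v := by
        have := N.gx i
        rw [← mem_edgeSet, ← h2, mem_edgeSet] at this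
        exact this
      rw [h2, W_x N.hn N.ix N.hxy, if_pos h1]
      exact ⟨⟨hg, by norm_num⟩, by decide⟩
    · have hg : G.Adj u v := by
        have := N.gy i
        rw [← mem_edgeSet, ← h2, mem_edgeSet] at this
        exact this
      rw [h2, W_y N.hn N.iy N.hxy, if_pos h1]
      exact ⟨⟨hg, by norm_num⟩, by decide⟩
    · have hg : G.Adj u v := by
        have := N.gm i
        rw [← mem_edgeSet, ← h2, mem_edgeSet] at this
        exact this
      rw [h2, W_m N.ix N.hxy]
      rcases z2_sum _ _ h1 with ⟨h, h'⟩ | ⟨h, h'⟩ <;> rw [h, h'] <;>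
        exact ⟨⟨hg, by decide⟩, by decide⟩

lemma even_AG (N : Num G x y p) (a b : ZMod n → ZMod 2) (hab : Ev p a b) (v : V) :
    Even {w | (AG x y p a b N.hx1 N.hy1 N.hxy).Adj v w}.ncard := by
  rcases N.cov v with ⟨i, rfl⟩ | ⟨i, rfl⟩
  · have hs : {w | (AG x y p a b N.hx1 N.hy1 N.hxy).Adj (x i) w} =
        {w | (a i = 1 ∧ w = x (i + 1)) ∨ (a (i - 1) = 1 ∧ w = x (i - 1)) ∨
          (a (i - 1) + a i = 1 ∧ w = y (p i))} := by
      ext w
      rw [Set.mem_ofPred_eq, Set.mem_ofPred_eq]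
      exact adj_x N.ix i w
    rw [hs]
    rcases z2 (a (i - 1)) with h1 | h1 <;> rcases z2 (a i) with h2 | h2 <;> rw [h1, h2]
    · have : {w | ((0 : ZMod 2) = 1 ∧ w = x (i + 1)) ∨ ((0 : ZMod 2) = 1 ∧ w = x (i - 1)) ∨
          ((0 : ZMod 2) + 0 = 1 ∧ w = y (p i))} = ∅ := by
        ext w; simp
      rw [this]; simp
    · have : {w | ((1 : ZMod 2) = 1 ∧ w = x (i + 1)) ∨ ((0 : ZMod 2) = 1 ∧ w = x (i - 1)) ∨
          ((0 : ZMod 2) + 1 = 1 ∧ w = y (p i))} = {x (i + 1), y (p i)} := by
        ext w; simp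
      rw [this, Set.ncard_pair (N.hxy _ _)]; decide
    · have : {w | ((0 : ZMod 2) = 1 ∧ w = x (i + 1)) ∨ ((1 : ZMod 2) = 1 ∧ w = x (i - 1)) ∨
          ((1 : ZMod 2) + 0 = 1 ∧ w = y (p i))} = {x (i - 1), y (p i)} := by
        ext w; simp
      rw [this, Set.ncard_pair (N.hxy _ _)]; decide
    · have : {w | ((1 : ZMod 2) = 1 ∧ w = x (i + 1)) ∨ ((1 : ZMod 2) = 1 ∧ w = x (i - 1)) ∨
          ((1 : ZMod 2) + 1 = 1 ∧ w = y (p i))} = {x (i + 1), x (i - 1)} := by
        ext w
        have h0 : ¬ ((1 : ZMod 2) + 1 = 1) := by decide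
        simp [h0]
      rw [this, Set.ncard_pair (fun h => two_ne N.hn i (N.ix h))]; decide
  · have hs : {w | (AG x y p a b N.hx1 N.hy1 N.hxy).Adj (y (p i)) w} =
        {w | (b (p i) = 1 ∧ w = y (p i + 1)) ∨ (b (p i - 1) = 1 ∧ w = y (p i - 1)) ∨
          (b (p i - 1) + b (p i) = 1 ∧ w = x i)} := by
      ext w
      rw [← hab i, Set.mem_ofPred_eq, Set.mem_ofPred_eq]
      exact adj_y N.iy i w
    rw [hs]
    rcases z2 (b (p i - 1)) with h1 | h1 <;> rcases z2 (b (p i)) with h2 | h2 <;> rw [h1, h2]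
    · have : {w | ((0 : ZMod 2) = 1 ∧ w = y (p i + 1)) ∨ ((0 : ZMod 2) = 1 ∧ w = y (p i - 1)) ∨
          ((0 : ZMod 2) + 0 = 1 ∧ w = x i)} = ∅ := by
        ext w; simp
      rw [this]; simp
    · have : {w | ((1 : ZMod 2) = 1 ∧ w = y (p i + 1)) ∨ ((0 : ZMod 2) = 1 ∧ w = y (p i - 1)) ∨
          ((0 : ZMod 2) + 1 = 1 ∧ w = x i)} = {y (p i + 1), x i} := by
        ext w; simp
      rw [this, Set.ncard_pair (N.hxy _ _).symm]; decide
    · have : {w | ((0 : ZMod 2) = 1 ∧ w = y (p i + 1)) ∨ ((1 : ZMod 2) = 1 ∧ w = y (p i - 1)) ∨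
          ((1 : ZMod 2) + 0 = 1 ∧ w = x i)} = {y (p i - 1), x i} := by
        ext w; simp
      rw [this, Set.ncard_pair (N.hxy _ _).symm]; decide
    · have : {w | ((1 : ZMod 2) = 1 ∧ w = y (p i + 1)) ∨ ((1 : ZMod 2) = 1 ∧ w = y (p i - 1)) ∨
          ((1 : ZMod 2) + 1 = 1 ∧ w = x i)} = {y (p i + 1), y (p i - 1)} := by
        ext w
        have h0 : ¬ ((1 : ZMod 2) + 1 = 1) := by decide
        simp [h0]
      rw [this, Set.ncard_pair (fun h => two_ne N.hn (p i) (N.iy h))]; decide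

theorem eulerian_W (N : Num G x y p) (a b : ZMod n → ZMod 2) (hab : Ev p a b) :
    Eulerian (support G (W x y p a b)) (W x y p a b) := by
  intro v
  have : {u | (support G (W x y p a b)).Adj v u ∧ Odd (W x y p a b s(v, u))} =
      {w | (AG x y p a b N.hx1 N.hy1 N.hxy).Adj v w} := by
    ext u
    rw [Set.mem_ofPred_eq, Set.mem_ofPred_eq]
    exact odd_iff N a b v u
  rw [this]
  exact even_AG N a b hab v

/-- the side of a bridge -/
lemma cut_facts (N : Num G x y p) (a b : ZMod n → ZMod 2) (e : Sym2 V) (P : V) :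
    ∃ X Y : ZMod n → ZMod 2,
      (∀ i, X i = 1 ↔ ((support G (W x y p a b)).deleteEdges {e}).Reachable P (x i)) ∧
      (∀ j, Y j = 1 ↔ ((support G (W x y p a b)).deleteEdges {e}).Reachable P (y j)) ∧
      (∀ i, a i = 1 → s(x i, x (i + 1)) ≠ e → X i = X (i + 1)) ∧
      (∀ j, b j = 1 → s(y j, y (j + 1)) ≠ e → Y j = Y (j + 1)) ∧
      (∀ i, (a i = 1 ∨ a (i - 1) = 1) → s(x i, y (p i)) ≠ e → X i = Y (p i)) := by
  classical
  set T' := (support G (W x y p a b)).deleteEdges {e} with hT'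
  have hcongr : ∀ u v, T'.Adj u v → (T'.Reachable P u ↔ T'.Reachable P v) :=
    fun u v huv => ⟨fun h1 => h1.trans huv.reachable, fun h1 => h1.trans huv.symm.reachable⟩
  refine ⟨fun i => if T'.Reachable P (x i) then 1 else 0,
    fun j => if T'.Reachable P (y j) then 1 else 0, ?_, ?_, ?_, ?_, ?_⟩
  · intro i
    by_cases h : T'.Reachable P (x i) <;> simp [h]
  · intro i
    by_cases h : T'.Reachable P (y i) <;> simp [h]
  · intro i hi he
    have hadj : T'.Adj (x i) (x (i + 1)) := by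
      rw [hT', deleteEdges_adj]
      refine ⟨(supp_adj _ _ _).2 ⟨N.gx i, ?_⟩, he⟩
      rw [W_x N.hn N.ix N.hxy, if_pos hi]
      norm_num
    show (if T'.Reachable P (x i) then (1 : ZMod 2) else 0) = if _ then 1 else 0
    rw [if_congr (hcongr _ _ hadj) rfl rfl]
  · intro i hi he
    have hadj : T'.Adj (y i) (y (i + 1)) := by
      rw [hT', deleteEdges_adj]
      refine ⟨(supp_adj _ _ _).2 ⟨N.gy i, ?_⟩, he⟩
      rw [W_y N.hn N.iy N.hxy, if_pos hi]
      norm_num
    show (if T'.Reachable P (y i) then (1 : ZMod 2) else 0) = if _ then 1 else 0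
    rw [if_congr (hcongr _ _ hadj) rfl rfl]
  · intro i hi he
    have hadj : T'.Adj (x i) (y (p i)) := by
      rw [hT', deleteEdges_adj]
      refine ⟨(supp_adj _ _ _).2 ⟨N.gm i, ?_⟩, he⟩
      rw [W_m N.ix N.hxy]
      rcases hi with hi | hi <;> rw [if_pos hi] <;> omega
    show (if T'.Reachable P (x i) then (1 : ZMod 2) else 0) = if _ then 1 else 0
    rw [if_congr (hcongr _ _ hadj) rfl rfl]

lemma z2_ne : ∀ z w : ZMod 2, z ≠ w → z + w = 1 := by decide

lemma z2_add_eq : ∀ z w : ZMod 2, z + w = 0 → z = w := by decide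

lemma mul_side {z v v' : ZMod 2} (h : z = 1 → v = v') : z * (v + v') = 0 := by
  rcases z2 z with h1 | h1
  · rw [h1, zero_mul]
  · rw [h h1, CharTwo.add_self_eq_zero, mul_zero]

lemma not_reach {G : SimpleGraph V} {u v : V} (h : G.IsBridge s(u, v)) :
    ¬ (G.deleteEdges {s(u, v)}).Reachable u v := by
  rw [isBridge_iff] at h
  exact h

/-- if one half has a bridge, then the word splits -/
theorem split_of_bridge [NeZero n] (N : Num G x y p) (a b : ZMod n → ZMod 2) (hab : Ev p a b)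
    (hz : ∀ i, (word p a b i).1 = 0 → (word p a b i).2 = 0)
    (hb : ¬ Bridgeless (support G (W x y p a b))) :
    ∃ g s t, Ev p s t ∧ word p a b g = 0 ∧ word p s t g = (0, 1) ∧
      ∀ i, i ≠ g → word p s t i = 0 ∨ word p s t i = word p a b i := by
  unfold Bridgeless at hb
  push Not at hb
  obtain ⟨e, heT, hbr⟩ := hb
  have hWe : e ∈ G.edgeSet ∧ 0 < W x y p a b e := by
    revert heT
    refine Sym2.ind (fun u v => ?_) e
    intro h
    exact (supp_adj _ _ _).1 h
  rcases N.edge e hWe.1 with ⟨k, hk⟩ | ⟨k, hk⟩ | ⟨g, hg⟩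
  · -- an odd edge of `C₁`
    exfalso
    subst hk
    have hak : a k = 1 := by
      by_contra h
      have := hWe.2
      rw [W_x N.hn N.ix N.hxy, if_neg h] at this
      exact lt_irrefl _ this
    obtain ⟨X, Y, h1, h2, h3, h4, h5⟩ := cut_facts N a b s(x k, x (k + 1)) (x k)
    have hXk : X k = 1 := (h1 k).2 (Reachable.refl _)
    have hXk' : X (k + 1) ≠ 1 := fun h => not_reach hbr ((h1 _).1 h)
    have hp := parity_sum p a b X Y hab
    rw [Finset.sum_eq_single k, Finset.sum_eq_zero, Finset.sum_eq_zero, hak, hXk,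
      (z2 (X (k + 1))).resolve_right hXk'] at hp
    · exact absurd hp (by decide)
    · intro i _
      rcases z2 (a (i - 1)) with h6 | h6 <;> rcases z2 (a i) with h7 | h7
      · rw [h6, h7, add_zero, zero_mul]
      · rw [h5 i (Or.inl h7) (sxm N.hxy _ _).symm, CharTwo.add_self_eq_zero, mul_zero]
      · rw [h5 i (Or.inr h6) (sxm N.hxy _ _).symm, CharTwo.add_self_eq_zero, mul_zero]
      · rw [h5 i (Or.inl h7) (sxm N.hxy _ _).symm, CharTwo.add_self_eq_zero, mul_zero]
    · intro j _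
      exact mul_side fun h => h4 j h (sxy N.hxy _ _).symm
    · intro i _ hi
      exact mul_side fun h => h3 i h (fun h' => hi ((sx_iff N.hn N.ix _ _).1 h'))
    · intro h
      exact absurd (Finset.mem_univ k) h
  · -- an odd edge of `C₂`
    exfalso
    subst hk
    have hak : b k = 1 := by
      by_contra h
      have := hWe.2
      rw [W_y N.hn N.iy N.hxy, if_neg h] at this
      exact lt_irrefl _ this
    obtain ⟨X, Y, h1, h2, h3, h4, h5⟩ := cut_facts N a b s(y k, y (k + 1)) (y k)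
    have hXk : Y k = 1 := (h2 k).2 (Reachable.refl _)
    have hXk' : Y (k + 1) ≠ 1 := fun h => not_reach hbr ((h2 _).1 h)
    have hp := parity_sum p a b X Y hab
    rw [Finset.sum_eq_zero, Finset.sum_eq_single k, Finset.sum_eq_zero, hak, hXk,
      (z2 (Y (k + 1))).resolve_right hXk'] at hp
    · exact absurd hp (by decide)
    · intro i _
      rcases z2 (a (i - 1)) with h6 | h6 <;> rcases z2 (a i) with h7 | h7
      · rw [h6, h7, add_zero, zero_mul]
      · rw [h5 i (Or.inl h7) (sym' N.hxy _ _).symm, CharTwo.add_self_eq_zero, mul_zero]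
      · rw [h5 i (Or.inr h6) (sym' N.hxy _ _).symm, CharTwo.add_self_eq_zero, mul_zero]
      · rw [h5 i (Or.inl h7) (sym' N.hxy _ _).symm, CharTwo.add_self_eq_zero, mul_zero]
    · intro i _ hi
      exact mul_side fun h => h4 i h (fun h' => hi ((sx_iff N.hn N.iy _ _).1 h'))
    · intro h
      exact absurd (Finset.mem_univ k) h
    · intro j _
      exact mul_side fun h => h3 j h (sxy N.hxy _ _)
  · -- an edge of `M`
    subst hg
    have hag : a g = 1 ∨ a (g - 1) = 1 := by
      by_contra h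
      push Not at h
      have := hWe.2
      rw [W_m N.ix N.hxy, if_neg h.1, if_neg h.2] at this
      exact lt_irrefl _ this
    obtain ⟨X, Y, h1, h2, h3, h4, h5⟩ := cut_facts N a b s(x g, y (p g)) (x g)
    have hXg : X g = 1 := (h1 g).2 (Reachable.refl _)
    have hYg : Y (p g) = 0 :=
      (z2 (Y (p g))).resolve_right (fun h => not_reach hbr ((h2 _).1 h))
    have h3' : ∀ i, a i = 1 → X i = X (i + 1) := fun i h => h3 i h (sxm N.hxy _ _)
    have h4' : ∀ j, b j = 1 → Y j = Y (j + 1) := fun j h => h4 j h (sym' N.hxy _ _)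
    have h5' : ∀ i, i ≠ g → (a i = 1 ∨ a (i - 1) = 1) → X i = Y (p i) :=
      fun i hi h => h5 i h (fun h' => hi ((sm_iff N.ix N.hxy _ _).1 h'))
    have hpar := parity_sum p a b X Y hab
    rw [Finset.sum_eq_zero (f := fun i => a i * (X i + X (i + 1))),
      Finset.sum_eq_zero (f := fun j => b j * (Y j + Y (j + 1))), Finset.sum_eq_single g, hXg,
      hYg] at hpar
    · have hag0 : a (g - 1) + a g = 0 := by
        rw [zero_add, zero_add, add_zero, mul_one] at hpar
        exact hpar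
      have e1 : a (g - 1) = a g := z2_add_eq _ _ hag0
      have e2 : a g = 1 := by
        rcases hag with h | h
        · exact h
        · rw [← e1]; exact h
      have e3 : b (p g) = 1 := by
        have := hz g hag0
        have h6 : a g + b (p g) = 0 := this
        rw [← z2_add_eq _ _ h6]; exact e2
      have e4 : b (p g - 1) = 1 := by
        have := hab g
        rw [hag0] at this
        rw [z2_add_eq _ _ this.symm]; exact e3
      have sX : ∀ i, a (i - 1) * X (i - 1) = a (i - 1) * X i := by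
        intro i
        rcases z2 (a (i - 1)) with h | h
        · rw [h, zero_mul, zero_mul]
        · rw [h3' (i - 1) h, sub_add_cancel]
      have sY : ∀ j, b (j - 1) * Y (j - 1) = b (j - 1) * Y j := by
        intro j
        rcases z2 (b (j - 1)) with h | h
        · rw [h, zero_mul, zero_mul]
        · rw [h4' (j - 1) h, sub_add_cancel]
      have hw : ∀ i, word p (fun i => a i * X i) (fun j => b j * Y j) i =
          ((a (i - 1) + a i) * X i, a i * X i + b (p i) * Y (p i)) := by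
        intro i
        show (a (i - 1) * X (i - 1) + a i * X i, a i * X i + b (p i) * Y (p i)) = _
        rw [sX i, add_mul]
      refine ⟨g, fun i => a i * X i, fun j => b j * Y j, ?_, ?_, ?_, ?_⟩
      · intro i
        show a (i - 1) * X (i - 1) + a i * X i = b (p i - 1) * Y (p i - 1) + b (p i) * Y (p i)
        rw [sX, sY, ← add_mul, ← add_mul, ← hab i]
        by_cases hi : i = g
        · rw [hi, hag0, zero_mul, zero_mul]
        · rcases z2 (a (i - 1)) with h6 | h6 <;> rcases z2 (a i) with h7 | h7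
          · rw [h6, h7, add_zero, zero_mul, zero_mul]
          · rw [h5' i hi (Or.inl h7)]
          · rw [h5' i hi (Or.inr h6)]
          · rw [h5' i hi (Or.inl h7)]
      · show (a (g - 1) + a g, a g + b (p g)) = 0
        rw [hag0, e2, e3]
        decide
      · rw [hw, hag0, e2, e3, hXg, hYg]
        decide
      · intro i hi
        rw [hw]
        show _ ∨ _ = (a (i - 1) + a i, a i + b (p i))
        by_cases h6 : a i = 1 ∨ a (i - 1) = 1
        · rw [← h5' i hi h6, ← add_mul]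
          rcases z2 (X i) with h7 | h7
          · left
            rw [h7, mul_zero, mul_zero]; rfl
          · right
            rw [h7, mul_one, mul_one]
        · left
          push Not at h6
          have h7 : a i = 0 := (z2 _).resolve_right h6.1
          have h8 : a (i - 1) = 0 := (z2 _).resolve_right h6.2
          have h9 : b (p i) = 0 := by
            have := hz i (by show a (i - 1) + a i = 0; rw [h7, h8, add_zero])
            have h10 : a i + b (p i) = 0 := this
            rw [← z2_add_eq _ _ h10]; exact h7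
          rw [h7, h8, h9]
          simp
    · intro i _ hi
      rcases z2 (a (i - 1)) with h6 | h6 <;> rcases z2 (a i) with h7 | h7
      · rw [h6, h7, add_zero, zero_mul]
      · rw [h5' i hi (Or.inl h7), CharTwo.add_self_eq_zero, mul_zero]
      · rw [h5' i hi (Or.inr h6), CharTwo.add_self_eq_zero, mul_zero]
      · rw [h5' i hi (Or.inl h7), CharTwo.add_self_eq_zero, mul_zero]
    · intro h
      exact absurd (Finset.mem_univ g) h
    · intro j _
      exact mul_side (h4' j)
    · intro j _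
      exact mul_side (h3' j)

end

end Pool.Agent.H77.Code
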