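import Mathlib
import Pool.Agent.H77.Code.Split

set_option autoImplicit false

/-!
Inclusion-minimal contra pairs on permutation graphs (MP_a46c6f_co): they are critical, and every
nonzero word without the letter `z` of the code of the permutation splits.
-/

namespace Pool.Agent.H77.Code

open SimpleGraph Pool.Agent.H5.Goddyn Pool.Agent.H98.TC Pool.Agent.H64.Pent Pool.Agent.H59.Pent

variable {V : Type*}

lemma num_of (G : SimpleGraph V) (M C₁ C₂ : G.Subgraph) (h : IsPermutationGraph G M C₁ C₂) {n : ℕ}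
    (hn : 3 ≤ n) (x y : ZMod n → V) (p : Equiv.Perm (ZMod n)) (hx : Numb C₁ x) (hy : Numb C₂ y)
    (hM : ∀ i, M.Adj (x i) (y (p i))) : Num G x y p := by
  have ix := hx.1
  have iy := hy.1
  have mx : ∀ i, x i ∈ C₁.verts := fun i => by rw [← hx.2.1]; exact ⟨i, rfl⟩
  have my : ∀ j, y j ∈ C₂.verts := fun j => by rw [← hy.2.1]; exact ⟨j, rfl⟩
  have hxy : ∀ i j, x i ≠ y j := by
    intro i j hij
    exact Set.disjoint_left.1 h.disjoint (mx i) (hij ▸ my j)
  have hcov : ∀ v, (∃ i, v = x i) ∨ ∃ i, v = y (p i) := by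
    intro v
    rcases cover' h v with hv | hv
    · rw [← hx.2.1] at hv
      obtain ⟨i, hi⟩ := hv
      exact Or.inl ⟨i, hi.symm⟩
    · rw [← hy.2.1] at hv
      obtain ⟨j, hj⟩ := hv
      exact Or.inr ⟨p.symm j, by rw [Equiv.apply_symm_apply]; exact hj.symm⟩
  have hCx : ∀ i, C₁.Adj (x i) (x (i + 1)) := fun i => (hx.2.2 i _).2 (Or.inr rfl)
  have hCy : ∀ j, C₂.Adj (y j) (y (j + 1)) := fun j => (hy.2.2 j _).2 (Or.inr rfl)
  have hMu : ∀ v w w', M.Adj v w → M.Adj v w' → w = w' := by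
    intro v w w' h1 h2
    exact (h.perfect.1 (h.perfect.2 v)).unique h1 h2
  refine ⟨hn, ix, iy, hxy, hcov, fun i => (hCx i).adj_sub, fun j => (hCy j).adj_sub,
    fun i => (hM i).adj_sub, ?_⟩
  intro e
  refine Sym2.ind (fun u v => ?_) e
  intro huv
  rw [mem_edgeSet] at huv
  by_cases hm : M.Adj u v
  · right; right
    rcases hcov u with ⟨i, rfl⟩ | ⟨i, rfl⟩
    · exact ⟨i, by rw [hMu _ _ _ hm (hM i)]⟩
    · exact ⟨i, by rw [hMu _ _ _ hm (hM i).symm, Sym2.eq_swap]⟩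
  · rcases (h.union u v).1 ⟨huv, hm⟩ with hc | hc
    · left
      have hu : u ∈ C₁.verts := C₁.edge_vert hc
      rw [← hx.2.1] at hu
      obtain ⟨i, rfl⟩ := hu
      rcases (hx.2.2 i v).1 hc with h1 | h1
      · refine ⟨i - 1, ?_⟩
        rw [h1, Sym2.eq_swap, sub_add_cancel]
      · exact ⟨i, by rw [h1]⟩
    · right; left
      have hu : u ∈ C₂.verts := C₂.edge_vert hc
      rw [← hy.2.1] at hu
      obtain ⟨i, rfl⟩ := hu
      rcases (hy.2.2 i v).1 hc with h1 | h1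
      · refine ⟨i - 1, ?_⟩
        rw [h1, Sym2.eq_swap, sub_add_cancel]
      · exact ⟨i, by rw [h1]⟩

lemma z2_flip : ∀ z w : ZMod 2, (1 + z) + (1 + w) = z + w := by decide

lemma ev_flip {n : ℕ} {p : Equiv.Perm (ZMod n)} {a b : ZMod n → ZMod 2} (hab : Ev p a b) :
    Ev p (fun i => 1 + a i) (fun j => 1 + b j) := by
  intro i
  show (1 + a (i - 1)) + (1 + a i) = (1 + b (p i - 1)) + (1 + b (p i))
  rw [z2_flip, z2_flip, hab i]

lemma word_flip {n : ℕ} (p : Equiv.Perm (ZMod n)) (a b : ZMod n → ZMod 2) (i : ZMod n) :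
    word p (fun i => 1 + a i) (fun j => 1 + b j) i = word p a b i := by
  show ((1 + a (i - 1)) + (1 + a i), (1 + a i) + (1 + b (p i))) = (a (i - 1) + a i, a i + b (p i))
  rw [z2_flip, z2_flip]

/-- **every nonzero `z`-free word splits.** -/
theorem splits_of_inclusionMinimal (G : SimpleGraph V) (M C₁ C₂ : G.Subgraph)
    (h : IsPermutationGraph G M C₁ C₂) (hmin : IsInclusionMinimal G (wt M)) {n : ℕ}
    (hn : 3 ≤ n) (x y : ZMod n → V) (p : Equiv.Perm (ZMod n)) (hx : Numb C₁ x) (hy : Numb C₂ y)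
    (hM : ∀ i, M.Adj (x i) (y (p i))) (a b : ZMod n → ZMod 2) (hab : Ev p a b)
    (hz : ∀ i, (word p a b i).1 = 0 → (word p a b i).2 = 0) (h0 : ∃ i, word p a b i ≠ 0) :
    ∃ g s t, Ev p s t ∧ word p a b g = 0 ∧ word p s t g = (0, 1) ∧
      ∀ i, i ≠ g → word p s t i = 0 ∨ word p s t i = word p a b i := by
  classical
  have : NeZero n := ⟨by omega⟩
  have N := num_of G M C₁ C₂ h hn x y p hx hy hM
  by_contra hcon
  have b1 : Bridgeless (support G (W x y p a b)) := by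
    by_contra hb
    exact hcon (split_of_bridge N a b hab hz hb)
  have b2 : Bridgeless (support G (W x y p (fun i => 1 + a i) (fun j => 1 + b j))) := by
    by_contra hb
    refine hcon ?_
    have hz' : ∀ i, (word p (fun i => 1 + a i) (fun j => 1 + b j) i).1 = 0 →
        (word p (fun i => 1 + a i) (fun j => 1 + b j) i).2 = 0 := by
      intro i
      rw [word_flip]; exact hz i
    obtain ⟨g, s, t, h1, h2, h3, h4⟩ := split_of_bridge N _ _ (ev_flip hab) hz' hb
    refine ⟨g, s, t, h1, by rw [← word_flip]; exact h2, h3, fun i hi => ?_⟩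
    rw [← word_flip p a b i]
    exact h4 i hi
  obtain ⟨i₀, hi₀⟩ := h0
  have ht : a (i₀ - 1) + a i₀ = 1 := by
    rcases z2 (a (i₀ - 1) + a i₀) with h1 | h1
    · exfalso
      exact hi₀ (Prod.ext h1 (hz i₀ h1))
    · exact h1
  have wM : ∀ i, wt M s(x i, y (p i)) = 2 := by
    intro i
    unfold wt
    rw [if_pos]
    exact hM i
  have wx : ∀ i, wt M s(x i, x (i + 1)) = 1 := by
    intro i
    unfold wt
    rw [if_neg]
    intro hm
    exact ((h.union _ _).2 (Or.inl ((hx.2.2 i _).2 (Or.inr rfl)))).2 hm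
  have wy : ∀ i, wt M s(y i, y (i + 1)) = 1 := by
    intro i
    unfold wt
    rw [if_neg]
    intro hm
    exact ((h.union _ _).2 (Or.inr ((hy.2.2 i _).2 (Or.inr rfl)))).2 hm
  have hsum : ∀ e ∈ G.edgeSet, wt M e = W x y p a b e +
      W x y p (fun i => 1 + a i) (fun j => 1 + b j) e := by
    intro e he
    rcases N.edge e he with ⟨k, rfl⟩ | ⟨k, rfl⟩ | ⟨k, rfl⟩
    · rw [wx, W_x hn N.ix N.hxy, W_x hn N.ix N.hxy]
      rcases z2 (a k) with h1 | h1 <;> rw [h1] <;> decide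
    · rw [wy, W_y hn N.iy N.hxy, W_y hn N.iy N.hxy]
      rcases z2 (b k) with h1 | h1 <;> rw [h1] <;> decide
    · rw [wM, W_m N.ix N.hxy, W_m N.ix N.hxy]
      rcases z2 (a k) with h1 | h1 <;> rcases z2 (a (k - 1)) with h2 | h2 <;> rw [h1, h2] <;> decide
  have hne : ∀ a' : ZMod n → ZMod 2, ∀ b' : ZMod n → ZMod 2, a' (i₀ - 1) + a' i₀ = 1 →
      W x y p a' b' s(x i₀, y (p i₀)) ≠ wt M s(x i₀, y (p i₀)) := by
    intro a' b' h1
    rw [wM, W_m N.ix N.hxy]
    rcases z2_sum _ _ h1 with ⟨h2, h3⟩ | ⟨h2, h3⟩ <;> rw [h2, h3] <;> decide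
  have f1 := hmin.2 (W x y p a b) (fun e he => by rw [hsum e he]; omega)
    ⟨_, N.gm i₀, hne a b ht⟩ (eulerian_W N a b hab) b1
  have f2 := hmin.2 (W x y p (fun i => 1 + a i) (fun j => 1 + b j))
    (fun e he => by rw [hsum e he]; omega)
    ⟨_, N.gm i₀, hne _ _ (by show (1 + a (i₀ - 1)) + (1 + a i₀) = 1; rw [z2_flip]; exact ht)⟩
    (eulerian_W N _ _ (ev_flip hab)) b2
  exact hmin.1 (fcc_add G _ _ _ hsum f1 f2)

/-- an inclusion-minimal contra pair is a critical contra pair. -/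
theorem critical_of_inclusionMinimal (G : SimpleGraph V) (w : Sym2 V → ℕ)
    (hmin : IsInclusionMinimal G w) : IsCriticalContraPair G w := by
  classical
  refine ⟨hmin.1, ?_⟩
  rintro C ⟨hC, w₁, h1, h2, h3⟩
  have hedge : ∃ e ∈ G.edgeSet, e ∈ C.edgeSet := by
    obtain ⟨v, hv⟩ := hC.1.nonempty
    have hc := hC.2 v hv
    have hne : (C.neighborSet v).Nonempty := by
      rw [Set.nonempty_iff_ne_empty]
      intro h0
      rw [h0, Set.ncard_empty] at hc
      exact absurd hc (by decide)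
    obtain ⟨u, hu⟩ := hne
    have hu' : C.Adj v u := hu
    exact ⟨s(v, u), hu'.adj_sub, hu'⟩
  have hw1 : HasFaithfulCircuitCover G w₁ := by
    refine hmin.2 w₁ (fun e he => by rw [h1 e he]; omega) ?_ h2 h3
    obtain ⟨e, he, heC⟩ := hedge
    refine ⟨e, he, ?_⟩
    rw [h1 e he, if_pos heC]
    omega
  have hw2 : HasFaithfulCircuitCover G (fun e => if e ∈ C.edgeSet then 1 else 0) := by
    refine ⟨1, fun _ => C, fun _ => hC, fun e _ => ?_⟩
    by_cases h : e ∈ C.edgeSet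
    · have : {i : Fin 1 | e ∈ C.edgeSet} = Set.univ := by
        ext i; simp [h]
      rw [this, Set.ncard_univ]
      simp [h]
    · have : {i : Fin 1 | e ∈ C.edgeSet} = ∅ := by
        ext i; simp [h]
      rw [this, Set.ncard_empty]
      simp [h]
  exact hmin.1 (fcc_add G w _ _ h1 hw1 hw2)

end Pool.Agent.H77.Code
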