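import Mathlib
import Pool.Agent.H77.Code.Incl
import Pool.Agent.H64.Pent.Final

set_option autoImplicit false

/-!
The end of the inclusion-minimal case (MP_a46c6f_co): order ten.
-/

namespace Pool.Agent.H77.Code

open SimpleGraph Pool.Agent.H5.Goddyn Pool.Agent.H98.TC Pool.Agent.H64.Pent Pool.Agent.H59.Pent

variable {V : Type*}

/-- a critical contra pair on a permutation graph whose circuits have length 5 is `(P₁₀, w₁₀)` -/
theorem petersen_of_five [Finite V] (G : SimpleGraph V) (M C₁ C₂ : G.Subgraph)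
    (h : IsPermutationGraph G M C₁ C₂) (hcrit : IsCriticalContraPair G (wt M)) {n : ℕ}
    (hn : 3 ≤ n) (x y : ZMod n → V) (p : Equiv.Perm (ZMod n)) (hx : Numb C₁ x) (hy : Numb C₂ y)
    (hM : ∀ i, M.Adj (x i) (y (p i))) (h5 : n = 5) : IsPetersenPair G M := by
  subst h5
  have hC : Crit p := crit_of_removable G M C₁ C₂ h hcrit.2 hn x y p hx hy hM
  exact fin_both G M C₁ C₂ h hcrit.2 hn x y p hx hy hM (Pool.Agent.H73.Pent.pent_of_five p hC)

end Pool.Agent.H77.Code
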